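import Pool.Agent.AlefS.Assemble
import Pool.Agent.AlefS.Cells
import Pool.Agent.AlefS.Contr

/-!
# A contractible union of fourteen squares with exactly countably infinitely many monohedral tilings
-/

set_option autoImplicit false

namespace Pool.Agent.Results.MP_5b2085_co.ContractibleTile

/-- The 14 cells of the prototile, given by the lower left corners of the unit squares. -/
def cells : Finset (ℤ × ℤ) :=
  {(-2, -2), (2, -2), (-3, -1), (-1, -1), (1, -1), (0, 0), (2, 0), (-1, 1), (0, 2), (-3, 3),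
   (-1, 3), (1, 3), (-2, 4), (2, 4)}

/-- The prototile: the union of the 14 closed unit squares. -/
def T : Set (EuclideanSpace ℝ (Fin 2)) :=
  {x | ∃ c ∈ cells, (c.1 : ℝ) ≤ x 0 ∧ x 0 ≤ c.1 + 1 ∧ (c.2 : ℝ) ≤ x 1 ∧ x 1 ≤ c.2 + 1}

theorem T_eq : AlefS.T0 = T := by
  ext x
  exact AlefS.mem_T0 cells (by decide +kernel) (by decide +kernel) x

/-- The tile `T` (14 closed unit squares, contractible with path connected complement, but not a
disk: squares meet in corners) has exactly countably infinitely many monohedral tilings of the plane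
up to isometry. -/
theorem result :
    cells.card = 14 ∧ IsConnected T ∧ ContractibleSpace T ∧ IsPathConnected Tᶜ ∧ IsCompact T ∧
      closure (interior T) = T ∧
      ∃ f : ℕ → Set (Set (EuclideanSpace ℝ (Fin 2))),
        (∀ n : ℕ,
          (∀ A ∈ f n, ∃ e : EuclideanSpace ℝ (Fin 2) ≃ᵢ EuclideanSpace ℝ (Fin 2), A = e '' T) ∧
          ⋃₀ (f n) = Set.univ ∧
          (f n).Pairwise (fun A B => Disjoint (interior A) (interior B))) ∧
        (∀ m n : ℕ, m ≠ n →
          ¬ ∃ g : EuclideanSpace ℝ (Fin 2) ≃ᵢ EuclideanSpace ℝ (Fin 2),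
              f n = (fun A => g '' A) '' f m) ∧
        (∀ 𝒯 : Set (Set (EuclideanSpace ℝ (Fin 2))),
          ((∀ A ∈ 𝒯, ∃ e : EuclideanSpace ℝ (Fin 2) ≃ᵢ EuclideanSpace ℝ (Fin 2), A = e '' T) ∧
            ⋃₀ 𝒯 = Set.univ ∧
            𝒯.Pairwise (fun A B => Disjoint (interior A) (interior B))) →
          ∃ n : ℕ, ∃ g : EuclideanSpace ℝ (Fin 2) ≃ᵢ EuclideanSpace ℝ (Fin 2),
            𝒯 = (fun A => g '' A) '' f n) := by
  refine ⟨by decide +kernel, ?_, ?_, ?_, (AlefC.squares_regular cells T fun x => Iff.rfl).1,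
    (AlefC.squares_regular cells T fun x => Iff.rfl).2, ?_⟩
  · rw [← T_eq]
    have := AlefS.Contr.contr_T0
    exact isConnected_iff_connectedSpace.2 inferInstance
  · rw [← T_eq]
    exact AlefS.Contr.contr_T0
  · rw [← T_eq]
    exact AlefS.Contr.compl_T0
  · rw [← T_eq]
    exact AlefS.main

end Pool.Agent.Results.MP_5b2085_co.ContractibleTile
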