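import Mathlib

/-!
# Tiles with an exchangeable patch in infinitely many places have uncountably many tilings

Let `T` be a tile: a nonempty set in the plane which is the closure of its interior and has only
countably many symmetries (this excludes the round disk). If a monohedral tiling with prototile `T`
contains infinitely many pairwise disjoint subfamilies (patches) each of which can be replaced by
another family of copies of `T` with the same union, then `T` has uncountably many monohedral tilings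
up to isometry. In particular this is so if `T` is bounded and some monohedral tiling which is
invariant under a translation contains one exchangeable finite patch.

Proof. Replace the patches with numbers in a set `S` of natural numbers. The result is a tiling, and
different sets `S` give different tilings. All these tilings contain a common tile. If an isometry maps
a tiling `𝒱` to a tiling which contains the tile `τ`, then it maps a tile of `𝒱` to `τ`, and so it is
one of countably many isometries. So every isometry class contains only countably many of the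
tilings.
-/

set_option autoImplicit false

namespace Pool.Agent.Results.MP_5b2085_co.ExchangeablePatches

open Set

/-- The plane. -/
abbrev E : Type := EuclideanSpace ℝ (Fin 2)

/-- The family `𝒜` consists of isometric copies of `T` with pairwise disjoint interiors. -/
def Packing (T : Set E) (𝒜 : Set (Set E)) : Prop :=
  (∀ A ∈ 𝒜, ∃ e : E ≃ᵢ E, A = e '' T) ∧
    𝒜.Pairwise (fun A B => Disjoint (interior A) (interior B))

/-- `𝒯` is a monohedral tiling of the plane with prototile `T`. -/
def IsTiling (T : Set E) (𝒯 : Set (Set E)) : Prop :=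
  Packing T 𝒯 ∧ ⋃₀ 𝒯 = univ

/-- The patch `𝒜` can be replaced by the patch `𝒬`, which is different and has the same union. -/
def Exchange (T : Set E) (𝒜 𝒬 : Set (Set E)) : Prop :=
  𝒬 ≠ 𝒜 ∧ Packing T 𝒬 ∧ ⋃₀ 𝒬 = ⋃₀ 𝒜

/-- Up to isometry there are only countably many monohedral tilings with prototile `T`. -/
def CountablyMany (T : Set E) : Prop :=
  ∃ f : ℕ → Set (Set E), ∀ 𝒯, IsTiling T 𝒯 → ∃ n, ∃ g : E ≃ᵢ E, 𝒯 = (fun A => g '' A) '' f n

theorem regular_copy {T A : Set E} (hcl : closure (interior T) = T)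
    (h : ∃ e : E ≃ᵢ E, A = e '' T) : A ⊆ closure (interior A) := by
  obtain ⟨e, rfl⟩ := h
  have h1 : interior (e '' T) = e '' interior T := (e.toHomeomorph.image_interior T).symm
  have h2 : closure (e '' interior T) = e '' closure (interior T) :=
    (e.toHomeomorph.image_closure _).symm
  rw [h1, h2, hcl]

theorem interior_copy {T A : Set E} (hne : T.Nonempty) (hcl : closure (interior T) = T)
    (h : ∃ e : E ≃ᵢ E, A = e '' T) : (interior A).Nonempty := by
  have h0 : A.Nonempty := by
    obtain ⟨e, rfl⟩ := h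
    exact hne.image e
  obtain ⟨x, hx⟩ := h0
  have h1 := regular_copy hcl h hx
  by_contra hcon
  rw [not_nonempty_iff_eq_empty] at hcon
  rw [hcon, closure_empty] at h1
  exact h1

theorem meet {𝒜 : Set (Set E)} (hreg : ∀ A ∈ 𝒜, A ⊆ closure (interior A)) {O : Set E}
    (hO : IsOpen O) (hne : O.Nonempty) (hsub : O ⊆ ⋃₀ 𝒜) :
    ∃ A ∈ 𝒜, (O ∩ interior A).Nonempty := by
  obtain ⟨x, hx⟩ := hne
  obtain ⟨A, hA, hxA⟩ := hsub hx
  exact ⟨A, hA, mem_closure_iff.1 (hreg A hA hxA) O hO hx⟩

/-- Two sets whose interiors are covered by families with pairwise disjoint interiors. -/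
theorem disj_two {𝒜 𝒜' : Set (Set E)} (hreg : ∀ A ∈ 𝒜, A ⊆ closure (interior A))
    (hreg' : ∀ A ∈ 𝒜', A ⊆ closure (interior A))
    (hd : ∀ A ∈ 𝒜, ∀ B ∈ 𝒜', Disjoint (interior A) (interior B)) {q q' : Set E}
    (hq : interior q ⊆ ⋃₀ 𝒜) (hq' : interior q' ⊆ ⋃₀ 𝒜') :
    Disjoint (interior q) (interior q') := by
  rw [disjoint_iff_inter_eq_empty]
  by_contra hcon
  have h1 : (interior q ∩ interior q').Nonempty := nonempty_iff_ne_empty.2 hcon
  obtain ⟨A, hA, h2⟩ := meet hreg (isOpen_interior.inter isOpen_interior) h1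
    (inter_subset_left.trans hq)
  obtain ⟨B, hB, x, ⟨⟨-, -⟩, hxA⟩, hxB⟩ := meet hreg'
    ((isOpen_interior.inter isOpen_interior).inter isOpen_interior) h2
    ((inter_subset_left.trans inter_subset_right).trans hq')
  exact (disjoint_left.1 (hd A hA B hB)) hxA hxB

/-- Two patches with the same union in one packing are equal. -/
theorem eq_of_both {T : Set E} (hne : T.Nonempty) (hcl : closure (interior T) = T)
    {𝒰 P Q : Set (Set E)} (hU : Packing T 𝒰) (hP : P ⊆ 𝒰) (hQ : Q ⊆ 𝒰) (h : ⋃₀ P = ⋃₀ Q) :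
    P ⊆ Q := by
  intro A hA
  have h1 := interior_copy hne hcl (hU.1 A (hP hA))
  have h2 : interior A ⊆ ⋃₀ Q := by
    rw [← h]
    exact interior_subset.trans (subset_sUnion_of_mem hA)
  obtain ⟨B, hB, x, hxA, hxB⟩ := meet (fun B hB => regular_copy hcl (hU.1 B (hQ hB)))
    isOpen_interior h1 h2
  by_cases hAB : A = B
  · rw [hAB]
    exact hB
  · exact absurd hxB (disjoint_left.1 (hU.2 (hP hA) (hQ hB) hAB) hxA)

/-- The tiling in which the patches with number in `S` are replaced. -/
def flip (𝒯 : Set (Set E)) (P Q : ℕ → Set (Set E)) (S : Set ℕ) : Set (Set E) :=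
  {A | A ∈ 𝒯 ∧ ∀ i ∈ S, A ∉ P i} ∪ {A | ∃ i ∈ S, A ∈ Q i}

theorem flip_tiling {T : Set E} (hcl : closure (interior T) = T)
    {𝒯 : Set (Set E)} {P Q : ℕ → Set (Set E)} (hT : IsTiling T 𝒯) (hP : ∀ i, P i ⊆ 𝒯)
    (hd : Pairwise fun i j => Disjoint (P i) (P j)) (hQ : ∀ i, Exchange T (P i) (Q i))
    (S : Set ℕ) : IsTiling T (flip 𝒯 P Q S) := by
  have hreg : ∀ A ∈ 𝒯, A ⊆ closure (interior A) := fun A hA => regular_copy hcl (hT.1.1 A hA)
  have hQsub : ∀ i, ∀ A ∈ Q i, interior A ⊆ ⋃₀ P i := fun i A hA => by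
    rw [← (hQ i).2.2]
    exact interior_subset.trans (subset_sUnion_of_mem hA)
  refine ⟨⟨?_, ?_⟩, ?_⟩
  · rintro A (⟨hA, -⟩ | ⟨i, -, hA⟩)
    · exact hT.1.1 A hA
    · exact (hQ i).2.1.1 A hA
  · rintro A (⟨hA, hA'⟩ | ⟨i, hi, hA⟩) B (⟨hB, hB'⟩ | ⟨j, hj, hB⟩) hAB
    · exact hT.1.2 hA hB hAB
    · refine disj_two (𝒜 := {A}) (𝒜' := P j) (fun C hC => ?_) (fun C hC => hreg C (hP j hC))
        (fun C hC D hD => ?_) (fun x hx => ⟨A, rfl, interior_subset hx⟩) (hQsub j B hB)
      · rw [mem_singleton_iff.1 hC]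
        exact hreg A hA
      · rw [mem_singleton_iff.1 hC]
        exact hT.1.2 hA (hP j hD) (fun h => hA' j hj (by rw [h]; exact hD))
    · refine disj_two (𝒜 := P i) (𝒜' := {B}) (fun C hC => hreg C (hP i hC)) (fun C hC => ?_)
        (fun C hC D hD => ?_) (hQsub i A hA) (fun x hx => ⟨B, rfl, interior_subset hx⟩)
      · rw [mem_singleton_iff.1 hC]
        exact hreg B hB
      · rw [mem_singleton_iff.1 hD]
        exact hT.1.2 (hP i hC) hB (fun h => hB' i hi (by rw [← h]; exact hC))
    · by_cases hij : i = j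
      · subst hij
        exact (hQ i).2.1.2 hA hB hAB
      · refine disj_two (fun C hC => hreg C (hP i hC)) (fun C hC => hreg C (hP j hC))
          (fun C hC D hD => ?_) (hQsub i A hA) (hQsub j B hB)
        exact hT.1.2 (hP i hC) (hP j hD) (fun h => disjoint_left.1 (hd hij) hC (by rw [h]; exact hD))
  · rw [eq_univ_iff_forall]
    intro x
    have hx : x ∈ ⋃₀ 𝒯 := by rw [hT.2]; exact mem_univ x
    obtain ⟨A, hA, hxA⟩ := hx
    by_cases h : ∃ i ∈ S, A ∈ P i
    · obtain ⟨i, hi, hAi⟩ := h
      have h1 : x ∈ ⋃₀ Q i := by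
        rw [(hQ i).2.2]
        exact ⟨A, hAi, hxA⟩
      obtain ⟨B, hB, hxB⟩ := h1
      exact ⟨B, Or.inr ⟨i, hi, hB⟩, hxB⟩
    · push Not at h
      exact ⟨A, Or.inl ⟨hA, h⟩, hxA⟩

theorem flip_mono {T : Set E} (hne : T.Nonempty) (hcl : closure (interior T) = T)
    {𝒯 : Set (Set E)} {P Q : ℕ → Set (Set E)} (hT : IsTiling T 𝒯) (hP : ∀ i, P i ⊆ 𝒯)
    (hd : Pairwise fun i j => Disjoint (P i) (P j)) (hQ : ∀ i, Exchange T (P i) (Q i))
    {S S' : Set ℕ} (h : flip 𝒯 P Q S = flip 𝒯 P Q S') : S ⊆ S' := by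
  intro i hi
  by_contra hi'
  have h1 : P i ⊆ flip 𝒯 P Q S' := fun A hA => Or.inl ⟨hP i hA, fun j hj hAj => by
    have hij : i ≠ j := fun e => hi' (by rw [e]; exact hj)
    exact disjoint_left.1 (hd hij) hA hAj⟩
  have h2 : Q i ⊆ flip 𝒯 P Q S' := by
    rw [← h]
    exact fun A hA => Or.inr ⟨i, hi, hA⟩
  have h3 := (flip_tiling hcl hT hP hd hQ S').1
  exact (hQ i).1 (Subset.antisymm (eq_of_both hne hcl h3 h2 h1 (hQ i).2.2)
    (eq_of_both hne hcl h3 h1 h2 (hQ i).2.2.symm))

theorem tiling_countable {T : Set E} (hne : T.Nonempty) (hcl : closure (interior T) = T)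
    {𝒰 : Set (Set E)} (hU : Packing T 𝒰) : 𝒰.Countable :=
  Set.PairwiseDisjoint.countable_of_isOpen (s := fun A : Set E => interior A) (a := 𝒰)
    (fun _ hA _ hB hAB => hU.2 hA hB hAB) (fun _ _ => isOpen_interior)
    (fun A hA => interior_copy hne hcl (hU.1 A hA))

theorem sym_countable {T τ : Set E} (hsym : {e : E ≃ᵢ E | e '' T = T}.Countable)
    (h : ∃ e : E ≃ᵢ E, τ = e '' T) : {k : E ≃ᵢ E | k '' τ = τ}.Countable := by
  obtain ⟨e, rfl⟩ := h
  refine (hsym.image fun s => e.symm.trans (s.trans e)).mono ?_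
  intro k hk
  refine ⟨e.trans (k.trans e.symm), ?_, ?_⟩
  · have hk' : k '' (e '' T) = e '' T := hk
    show (fun x => e.symm (k (e x))) '' T = T
    have h1 : (fun x => e.symm (k (e x))) '' T = e.symm '' (k '' (e '' T)) := by
      rw [image_image, image_image]
    rw [h1, hk', image_image]
    simp
  · ext x
    simp

theorem between_countable {T τ c : Set E} (hsym : {e : E ≃ᵢ E | e '' T = T}.Countable)
    (h : ∃ e : E ≃ᵢ E, τ = e '' T) : {g : E ≃ᵢ E | g '' c = τ}.Countable := by
  by_cases h0 : ∃ g1 : E ≃ᵢ E, g1 '' c = τ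
  · obtain ⟨g1, hg1⟩ := h0
    refine ((sym_countable hsym h).image fun k => g1.trans k).mono ?_
    intro g hg
    refine ⟨g1.symm.trans g, ?_, ?_⟩
    · have hg' : g '' c = τ := hg
      show (fun x => g (g1.symm x)) '' τ = τ
      have h1 : (fun x => g (g1.symm x)) '' τ = g '' (g1.symm '' τ) := by rw [image_image]
      have h2 : g1.symm '' τ = c := by
        rw [← hg1, image_image]
        simp
      rw [h1, h2, hg']
    · ext x
      simp
  · have h1 : {g : E ≃ᵢ E | g '' c = τ} = ∅ := by
      rw [eq_empty_iff_forall_notMem]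
      exact fun g hg => h0 ⟨g, hg⟩
    rw [h1]
    exact countable_empty

/-- If there are only countably many tilings up to isometry, then only countably many tilings
contain a given tile. -/
theorem key {T : Set E} (hne : T.Nonempty) (hcl : closure (interior T) = T)
    (hsym : {e : E ≃ᵢ E | e '' T = T}.Countable) (hc : CountablyMany T) (τ : Set E) :
    {𝒰 : Set (Set E) | IsTiling T 𝒰 ∧ τ ∈ 𝒰}.Countable := by
  obtain ⟨f, hf⟩ := hc
  by_cases hτ : ∃ e : E ≃ᵢ E, τ = e '' T
  · have h1 : (⋃ n ∈ {n : ℕ | (f n).Countable}, (fun g : E ≃ᵢ E => (fun A => g '' A) '' f n) ''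
        (⋃ c ∈ f n, {g : E ≃ᵢ E | g '' c = τ})).Countable := by
      refine (to_countable _).biUnion fun n hn => ?_
      exact (Set.Countable.biUnion hn fun c _ => between_countable hsym hτ).image _
    refine h1.mono ?_
    rintro 𝒰 ⟨hU, hτU⟩
    obtain ⟨n, g, hg⟩ := hf 𝒰 hU
    have hn : (f n).Countable := by
      refine Set.countable_of_injective_of_countable_image
        (f := fun A : Set E => g '' A) (fun A _ B _ h => g.injective.image_injective h) ?_
      rw [← hg]
      exact tiling_countable hne hcl hU.1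
    rw [mem_iUnion₂]
    refine ⟨n, hn, g, ?_, hg.symm⟩
    rw [mem_iUnion₂]
    rw [hg] at hτU
    obtain ⟨c, hcn, hgc⟩ := hτU
    exact ⟨c, hcn, hgc⟩
  · have h1 : {𝒰 : Set (Set E) | IsTiling T 𝒰 ∧ τ ∈ 𝒰} = ∅ := by
      rw [eq_empty_iff_forall_notMem]
      rintro 𝒰 ⟨hU, hτU⟩
      exact hτ (hU.1.1 τ hτU)
    rw [h1]
    exact countable_empty

theorem main {T : Set E} (hne : T.Nonempty) (hcl : closure (interior T) = T)
    (hsym : {e : E ≃ᵢ E | e '' T = T}.Countable) {𝒯 : Set (Set E)} {P Q : ℕ → Set (Set E)}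
    (hT : IsTiling T 𝒯) (hP : ∀ i, P i ⊆ 𝒯) (hd : Pairwise fun i j => Disjoint (P i) (P j))
    (hQ : ∀ i, Exchange T (P i) (Q i)) : ¬ CountablyMany T := by
  intro hc
  have h0 : ∃ τ, τ ∈ P 0 := by
    by_contra hcon
    push Not at hcon
    have h1 : P 0 = ∅ := eq_empty_iff_forall_notMem.2 hcon
    refine (hQ 0).1 ?_
    rw [h1, eq_empty_iff_forall_notMem]
    intro A hA
    obtain ⟨x, hx⟩ := interior_copy hne hcl ((hQ 0).2.1.1 A hA)
    have h2 : x ∈ ⋃₀ P 0 := by
      rw [← (hQ 0).2.2]
      exact ⟨A, hA, interior_subset hx⟩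
    rw [h1, sUnion_empty] at h2
    exact h2
  obtain ⟨τ, hτ⟩ := h0
  have hd' : Pairwise fun i j => Disjoint (P (i + 1)) (P (j + 1)) := fun i j hij =>
    hd (by omega)
  set φ : Set ℕ → Set (Set E) := fun S => flip 𝒯 (fun i => P (i + 1)) (fun i => Q (i + 1)) S
    with hφ
  have hinj : Function.Injective φ := fun S S' h => Subset.antisymm
    (flip_mono hne hcl hT (fun i => hP (i + 1)) hd' (fun i => hQ (i + 1)) h)
    (flip_mono hne hcl hT (fun i => hP (i + 1)) hd' (fun i => hQ (i + 1)) h.symm)
  have h1 : (φ '' univ).Countable := by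
    refine (key hne hcl hsym hc τ).mono ?_
    rintro _ ⟨S, -, rfl⟩
    refine ⟨flip_tiling hcl hT (fun i => hP (i + 1)) hd' (fun i => hQ (i + 1)) S, ?_⟩
    refine Or.inl ⟨hP 0 hτ, fun i _ hi => ?_⟩
    have h01 : (0 : ℕ) ≠ i + 1 := by omega
    exact disjoint_left.1 (hd h01) hτ hi
  have h2 : (univ : Set (Set ℕ)).Countable :=
    Set.countable_of_injective_of_countable_image hinj.injOn h1
  have h3 : Countable (Set ℕ) := countable_univ_iff.1 h2
  obtain ⟨g, hg⟩ := exists_injective_nat (Set ℕ)
  exact Function.cantor_injective g hg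

/-- The family `𝒜` translated by the vector `w`. -/
def move (w : E) (𝒜 : Set (Set E)) : Set (Set E) := (fun A => (fun x => x + w) '' A) '' 𝒜

theorem move_move (w w' : E) (𝒜 : Set (Set E)) : move w (move w' 𝒜) = move (w' + w) 𝒜 := by
  unfold move
  rw [image_image]
  congr 1
  ext A x
  rw [image_image]
  simp only [add_assoc]

theorem move_zero (𝒜 : Set (Set E)) : move 0 𝒜 = 𝒜 := by
  unfold move
  simp

theorem move_nsmul {v : E} {𝒜 : Set (Set E)} (h : move v 𝒜 = 𝒜) (m : ℕ) :
    move (m • v) 𝒜 = 𝒜 := by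
  induction m with
  | zero => rw [zero_smul, move_zero]
  | succ m ih => rw [add_smul, one_smul, ← move_move, ih, h]

theorem exchange_move {T : Set E} {P Q : Set (Set E)} (h : Exchange T P Q) (w : E) :
    Exchange T (move w P) (move w Q) := by
  refine ⟨fun h1 => h.1 ?_, ⟨?_, ?_⟩, ?_⟩
  · have h2 : move (-w) (move w Q) = move (-w) (move w P) := by rw [h1]
    rw [move_move, move_move, add_neg_cancel, move_zero, move_zero] at h2
    exact h2
  · rintro _ ⟨A, hA, rfl⟩
    obtain ⟨e, rfl⟩ := h.2.1.1 A hA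
    refine ⟨e.trans (IsometryEquiv.addRight w), ?_⟩
    show (fun x => x + w) '' (e '' T) = (fun x => e x + w) '' T
    rw [image_image]
  · rintro _ ⟨A, hA, rfl⟩ _ ⟨B, hB, rfl⟩ hAB
    have hne : A ≠ B := fun e => hAB (by rw [e])
    have h1 : ∀ C : Set E, interior ((fun x => x + w) '' C) = (fun x => x + w) '' interior C :=
      fun C => ((Homeomorph.addRight w).image_interior C).symm
    show Disjoint (interior ((fun x => x + w) '' A)) (interior ((fun x => x + w) '' B))
    rw [h1, h1]
    exact (disjoint_image_iff (add_left_injective w)).2 (h.2.1.2 hA hB hne)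
  · have h1 : ∀ 𝒜 : Set (Set E), ⋃₀ move w 𝒜 = (fun x => x + w) '' ⋃₀ 𝒜 := fun 𝒜 => by
      unfold move
      rw [sUnion_eq_biUnion, sUnion_eq_biUnion, biUnion_image, image_iUnion₂]
    rw [h1, h1, h.2.2]

/-- A bounded nonempty set is not equal to a translate. -/
theorem no_period {B : Set E} (hb : Bornology.IsBounded B) (hne : B.Nonempty) {w : E}
    (hw : w ≠ 0) (h : ∀ x ∈ B, x + w ∈ B) : False := by
  obtain ⟨x, hx⟩ := hne
  obtain ⟨R, hR⟩ := Metric.isBounded_iff.1 hb
  have h1 : ∀ k : ℕ, x + k • w ∈ B := by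
    intro k
    induction k with
    | zero => simpa using hx
    | succ k ih =>
      have := h _ ih
      rwa [add_assoc, ← succ_nsmul] at this
  have hpos : 0 < ‖w‖ := norm_pos_iff.2 hw
  obtain ⟨k, hk⟩ := exists_nat_gt (R / ‖w‖)
  have h2 := hR (h1 k) hx
  have h3 : dist (x + k • w) x = k * ‖w‖ := by
    rw [dist_eq_norm, add_sub_cancel_left, ← Nat.cast_smul_eq_nsmul ℝ, norm_smul, Real.norm_natCast]
  rw [h3] at h2
  rw [div_lt_iff₀ hpos] at hk
  linarith

theorem periodic {T : Set E} (hne : T.Nonempty) (hcl : closure (interior T) = T)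
    (hsym : {e : E ≃ᵢ E | e '' T = T}.Countable) (hb : Bornology.IsBounded T)
    {𝒯 P Q : Set (Set E)} (hT : IsTiling T 𝒯) {v : E} (hv : v ≠ 0) (hmv : move v 𝒯 = 𝒯)
    (hP : P ⊆ 𝒯) (hfin : P.Finite) (hQ : Exchange T P Q) : ¬ CountablyMany T := by
  have hbd : ∀ A ∈ P, Bornology.IsBounded A ∧ A.Nonempty := fun A hA => by
    obtain ⟨e, rfl⟩ := hT.1.1 A (hP hA)
    exact ⟨e.isometry.lipschitz.isBounded_image hb, hne.image e⟩
  have hM : {m : ℕ | ∃ A ∈ P, ∃ B ∈ P, A = (fun x => x + m • v) '' B}.Finite := by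
    have h1 : (⋃ A ∈ P, ⋃ B ∈ P, {m : ℕ | A = (fun x => x + m • v) '' B}).Finite := by
      refine hfin.biUnion fun A hA => hfin.biUnion fun B hB => Set.Subsingleton.finite ?_
      have key : ∀ m m' : ℕ, A = (fun x => x + m • v) '' B → A = (fun x => x + m' • v) '' B →
          ¬ m < m' := by
        intro m m' h2 h3 hlt
        have hw : (m' - m) • v ≠ 0 := by
          intro h4
          rw [← Nat.cast_smul_eq_nsmul ℝ] at h4
          rcases smul_eq_zero.1 h4 with h5 | h5
          · have h6 : m' - m = 0 := by exact_mod_cast h5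
            omega
          · exact hv h5
        refine no_period (hbd B hB).1 (hbd B hB).2 hw fun x hx => ?_
        have h4 : x + m' • v ∈ A := by
          rw [h3]
          exact ⟨x, hx, rfl⟩
        rw [h2] at h4
        obtain ⟨y, hy, h5⟩ := h4
        have h5' : y + m • v = x + m' • v := h5
        have h6 : x + (m' - m) • v = y := by
          have h7 : m' • v = (m' - m) • v + m • v := by
            rw [← add_smul]
            congr 1
            omega
          rw [h7, ← add_assoc] at h5'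
          exact (add_right_cancel h5').symm
        rw [h6]
        exact hy
      intro m hm m' hm'
      have h2 := key m m' hm hm'
      have h3 := key m' m hm' hm
      omega
    refine h1.subset ?_
    rintro m ⟨A, hA, B, hB, h⟩
    rw [mem_iUnion₂]
    exact ⟨A, hA, by rw [mem_iUnion₂]; exact ⟨B, hB, h⟩⟩
  obtain ⟨N, hN⟩ := hM.bddAbove
  refine main hne hcl hsym (P := fun k => move ((k * (N + 1)) • v) P)
    (Q := fun k => move ((k * (N + 1)) • v) Q) hT (fun k => ?_) ?_ (fun k => exchange_move hQ _)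
  · rw [← move_nsmul hmv (k * (N + 1))]
    exact image_mono hP
  · have key : ∀ k l : ℕ, k < l → Disjoint (move ((k * (N + 1)) • v) P)
        (move ((l * (N + 1)) • v) P) := by
      intro k l hkl
      rw [disjoint_left]
      rintro _ ⟨B, hB, rfl⟩ ⟨C, hC, h⟩
      obtain ⟨d, rfl⟩ : ∃ d, l = k + (d + 1) := ⟨l - k - 1, by omega⟩
      have h1 : B = (fun x => x + ((d + 1) * (N + 1)) • v) '' C := by
        have h2 : (fun x : E => x + (k * (N + 1)) • v) ''
            ((fun x => x + ((d + 1) * (N + 1)) • v) '' C) =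
            (fun x : E => x + (k * (N + 1)) • v) '' B := by
          have h' : (fun x : E => x + ((k + (d + 1)) * (N + 1)) • v) '' C =
            (fun x : E => x + (k * (N + 1)) • v) '' B := h
          rw [← h', image_image]
          refine image_congr fun x _ => ?_
          rw [add_assoc, ← add_smul]
          congr 2
          ring
        exact ((add_left_injective _).image_injective h2).symm
      have h3 := hN ⟨B, hB, C, hC, h1⟩
      nlinarith
    intro k l hkl
    rcases Nat.lt_or_gt_of_ne hkl with h | h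
    · exact key k l h
    · exact (key l k h).symm

/-- **Tiles with exchangeable patches.** Let `T` be a nonempty set in the plane which is the closure
of its interior and is mapped onto itself by only countably many isometries. (1) If a monohedral
tiling with prototile `T` contains pairwise disjoint patches `P 0, P 1, …` and each `P i` can be
replaced by another patch `Q i` with the same union, then there are uncountably many monohedral
tilings with prototile `T` up to isometry. (2) This holds in particular if `T` is bounded and some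
monohedral tiling with prototile `T` is invariant under a translation and contains a finite patch
which can be replaced. -/
theorem result (T : Set E) (hne : T.Nonempty) (hcl : closure (interior T) = T)
    (hsym : {e : E ≃ᵢ E | e '' T = T}.Countable) :
    (∀ (𝒯 : Set (Set E)) (P Q : ℕ → Set (Set E)), IsTiling T 𝒯 → (∀ i, P i ⊆ 𝒯) →
      (∀ i j, i ≠ j → Disjoint (P i) (P j)) → (∀ i, Exchange T (P i) (Q i)) →
      ¬ CountablyMany T) ∧
    (∀ (𝒯 P Q : Set (Set E)) (v : E), Bornology.IsBounded T → IsTiling T 𝒯 → v ≠ 0 →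
      (fun A => (fun x => x + v) '' A) '' 𝒯 = 𝒯 → P ⊆ 𝒯 → P.Finite → Exchange T P Q →
      ¬ CountablyMany T) :=
  ⟨fun _ _ _ hT hP hd hQ => main hne hcl hsym hT hP (fun i j hij => hd i j hij) hQ,
    fun _ _ _ _ hb hT hv hmv hP hfin hQ => periodic hne hcl hsym hb hT hv hmv hP hfin hQ⟩

end Pool.Agent.Results.MP_5b2085_co.ExchangeablePatches
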