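import Mathlib

/-!
# Tiles with a fault line, or another movable region, have uncountably many tilings

Let `T` be a tile: a nonempty set in the plane which is the closure of its interior and has only
countably many symmetries (this excludes the round disk). If some monohedral tiling with prototile `T`
has a nonempty proper subfamily whose union is mapped onto itself by uncountably many isometries,
then `T` has uncountably many monohedral tilings up to isometry. Examples of such unions are the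
half-planes beside a fault line, strips, and round disks or annuli which are unions of tiles.

Proof. Move the subfamily by the isometries. If an isometry maps a tiling `𝒱` to a tiling which
contains the tile `τ`, then it maps a tile of `𝒱` to `τ`, and so it is one of countably many
isometries. All the new tilings contain a common tile, so every isometry class contains only countably
many of them, and every one of them is obtained from only countably many of the isometries.
-/

set_option autoImplicit false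

namespace Pool.Agent.Results.MP_5b2085_co.MovableRegions

open Set

/-- The plane. -/
abbrev E : Type := EuclideanSpace ℝ (Fin 2)

/-- The family `𝒜` consists of isometric copies of `T` with pairwise disjoint interiors. -/
def Packing (T : Set E) (𝒜 : Set (Set E)) : Prop :=
  (∀ A ∈ 𝒜, ∃ e : E ≃ᵢ E, A = e '' T) ∧
    𝒜.Pairwise (fun A B => Disjoint (interior A) (interior B))

/-- `𝒯` is a monohedral tiling of the plane with prototile `T`. -/
def IsTiling (T : Set E) (𝒯 : Set (Set E)) : Prop :=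
  Packing T 𝒯 ∧ ⋃₀ 𝒯 = univ

/-- Up to isometry there are only countably many monohedral tilings with prototile `T`. -/
def CountablyMany (T : Set E) : Prop :=
  ∃ f : ℕ → Set (Set E), ∀ 𝒯, IsTiling T 𝒯 → ∃ n, ∃ g : E ≃ᵢ E, 𝒯 = (fun A => g '' A) '' f n

theorem regular_copy {T A : Set E} (hcl : closure (interior T) = T)
    (h : ∃ e : E ≃ᵢ E, A = e '' T) : A ⊆ closure (interior A) := by
  obtain ⟨e, rfl⟩ := h
  have h1 : interior (e '' T) = e '' interior T := (e.toHomeomorph.image_interior T).symm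
  have h2 : closure (e '' interior T) = e '' closure (interior T) :=
    (e.toHomeomorph.image_closure _).symm
  rw [h1, h2, hcl]

theorem interior_copy {T A : Set E} (hne : T.Nonempty) (hcl : closure (interior T) = T)
    (h : ∃ e : E ≃ᵢ E, A = e '' T) : (interior A).Nonempty := by
  have h0 : A.Nonempty := by
    obtain ⟨e, rfl⟩ := h
    exact hne.image e
  obtain ⟨x, hx⟩ := h0
  have h1 := regular_copy hcl h hx
  by_contra hcon
  rw [not_nonempty_iff_eq_empty] at hcon
  rw [hcon, closure_empty] at h1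
  exact h1

theorem meet {𝒜 : Set (Set E)} (hreg : ∀ A ∈ 𝒜, A ⊆ closure (interior A)) {O : Set E}
    (hO : IsOpen O) (hne : O.Nonempty) (hsub : O ⊆ ⋃₀ 𝒜) :
    ∃ A ∈ 𝒜, (O ∩ interior A).Nonempty := by
  obtain ⟨x, hx⟩ := hne
  obtain ⟨A, hA, hxA⟩ := hsub hx
  exact ⟨A, hA, mem_closure_iff.1 (hreg A hA hxA) O hO hx⟩

/-- Two sets whose interiors are covered by families with pairwise disjoint interiors. -/
theorem disj_two {𝒜 𝒜' : Set (Set E)} (hreg : ∀ A ∈ 𝒜, A ⊆ closure (interior A))
    (hreg' : ∀ A ∈ 𝒜', A ⊆ closure (interior A))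
    (hd : ∀ A ∈ 𝒜, ∀ B ∈ 𝒜', Disjoint (interior A) (interior B)) {q q' : Set E}
    (hq : interior q ⊆ ⋃₀ 𝒜) (hq' : interior q' ⊆ ⋃₀ 𝒜') :
    Disjoint (interior q) (interior q') := by
  rw [disjoint_iff_inter_eq_empty]
  by_contra hcon
  have h1 : (interior q ∩ interior q').Nonempty := nonempty_iff_ne_empty.2 hcon
  obtain ⟨A, hA, h2⟩ := meet hreg (isOpen_interior.inter isOpen_interior) h1
    (inter_subset_left.trans hq)
  obtain ⟨B, hB, x, ⟨⟨-, -⟩, hxA⟩, hxB⟩ := meet hreg'
    ((isOpen_interior.inter isOpen_interior).inter isOpen_interior) h2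
    ((inter_subset_left.trans inter_subset_right).trans hq')
  exact (disjoint_left.1 (hd A hA B hB)) hxA hxB

theorem tiling_countable {T : Set E} (hne : T.Nonempty) (hcl : closure (interior T) = T)
    {𝒰 : Set (Set E)} (hU : Packing T 𝒰) : 𝒰.Countable :=
  Set.PairwiseDisjoint.countable_of_isOpen (s := fun A : Set E => interior A) (a := 𝒰)
    (fun _ hA _ hB hAB => hU.2 hA hB hAB) (fun _ _ => isOpen_interior)
    (fun A hA => interior_copy hne hcl (hU.1 A hA))

theorem sym_countable {T τ : Set E} (hsym : {e : E ≃ᵢ E | e '' T = T}.Countable)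
    (h : ∃ e : E ≃ᵢ E, τ = e '' T) : {k : E ≃ᵢ E | k '' τ = τ}.Countable := by
  obtain ⟨e, rfl⟩ := h
  refine (hsym.image fun s => e.symm.trans (s.trans e)).mono ?_
  intro k hk
  refine ⟨e.trans (k.trans e.symm), ?_, ?_⟩
  · have hk' : k '' (e '' T) = e '' T := hk
    show (fun x => e.symm (k (e x))) '' T = T
    have h1 : (fun x => e.symm (k (e x))) '' T = e.symm '' (k '' (e '' T)) := by
      rw [image_image, image_image]
    rw [h1, hk', image_image]
    simp
  · ext x
    simp

theorem between_countable {T τ c : Set E} (hsym : {e : E ≃ᵢ E | e '' T = T}.Countable)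
    (h : ∃ e : E ≃ᵢ E, τ = e '' T) : {g : E ≃ᵢ E | g '' c = τ}.Countable := by
  by_cases h0 : ∃ g1 : E ≃ᵢ E, g1 '' c = τ
  · obtain ⟨g1, hg1⟩ := h0
    refine ((sym_countable hsym h).image fun k => g1.trans k).mono ?_
    intro g hg
    refine ⟨g1.symm.trans g, ?_, ?_⟩
    · have hg' : g '' c = τ := hg
      show (fun x => g (g1.symm x)) '' τ = τ
      have h1 : (fun x => g (g1.symm x)) '' τ = g '' (g1.symm '' τ) := by rw [image_image]
      have h2 : g1.symm '' τ = c := by
        rw [← hg1, image_image]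
        simp
      rw [h1, h2, hg']
    · ext x
      simp
  · have h1 : {g : E ≃ᵢ E | g '' c = τ} = ∅ := by
      rw [eq_empty_iff_forall_notMem]
      exact fun g hg => h0 ⟨g, hg⟩
    rw [h1]
    exact countable_empty

/-- If there are only countably many tilings up to isometry, then only countably many tilings
contain a given tile. -/
theorem key {T : Set E} (hne : T.Nonempty) (hcl : closure (interior T) = T)
    (hsym : {e : E ≃ᵢ E | e '' T = T}.Countable) (hc : CountablyMany T) (τ : Set E) :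
    {𝒰 : Set (Set E) | IsTiling T 𝒰 ∧ τ ∈ 𝒰}.Countable := by
  obtain ⟨f, hf⟩ := hc
  by_cases hτ : ∃ e : E ≃ᵢ E, τ = e '' T
  · have h1 : (⋃ n ∈ {n : ℕ | (f n).Countable}, (fun g : E ≃ᵢ E => (fun A => g '' A) '' f n) ''
        (⋃ c ∈ f n, {g : E ≃ᵢ E | g '' c = τ})).Countable := by
      refine (to_countable _).biUnion fun n hn => ?_
      exact (Set.Countable.biUnion hn fun c _ => between_countable hsym hτ).image _
    refine h1.mono ?_
    rintro 𝒰 ⟨hU, hτU⟩
    obtain ⟨n, g, hg⟩ := hf 𝒰 hU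
    have hn : (f n).Countable := by
      refine Set.countable_of_injective_of_countable_image
        (f := fun A : Set E => g '' A) (fun A _ B _ h => g.injective.image_injective h) ?_
      rw [← hg]
      exact tiling_countable hne hcl hU.1
    rw [mem_iUnion₂]
    refine ⟨n, hn, g, ?_, hg.symm⟩
    rw [mem_iUnion₂]
    rw [hg] at hτU
    obtain ⟨c, hcn, hgc⟩ := hτU
    exact ⟨c, hcn, hgc⟩
  · have h1 : {𝒰 : Set (Set E) | IsTiling T 𝒰 ∧ τ ∈ 𝒰} = ∅ := by
      rw [eq_empty_iff_forall_notMem]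
      rintro 𝒰 ⟨hU, hτU⟩
      exact hτ (hU.1.1 τ hτU)
    rw [h1]
    exact countable_empty

theorem movable {T : Set E} (hne : T.Nonempty) (hcl : closure (interior T) = T)
    (hsym : {e : E ≃ᵢ E | e '' T = T}.Countable) {𝒯 S : Set (Set E)} (hT : IsTiling T 𝒯)
    (hS : S ⊆ 𝒯) (hS0 : S.Nonempty) (hS1 : S ≠ 𝒯)
    (hG : ¬ {g : E ≃ᵢ E | g '' ⋃₀ S = ⋃₀ S}.Countable) : ¬ CountablyMany T := by
  intro hc
  apply hG
  obtain ⟨σ, hσ⟩ := hS0
  obtain ⟨τ, hτ, hτS⟩ : ∃ τ ∈ 𝒯, τ ∉ S := by
    by_contra hcon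
    push Not at hcon
    exact hS1 (Subset.antisymm hS hcon)
  have hreg : ∀ A ∈ 𝒯, A ⊆ closure (interior A) := fun A hA => regular_copy hcl (hT.1.1 A hA)
  set 𝒰 : (E ≃ᵢ E) → Set (Set E) := fun g => {A | A ∈ 𝒯 ∧ A ∉ S} ∪ (fun A => g '' A) '' S
    with h𝒰
  have htil : ∀ g ∈ {g : E ≃ᵢ E | g '' ⋃₀ S = ⋃₀ S}, IsTiling T (𝒰 g) := by
    intro g hg
    have hg' : g '' ⋃₀ S = ⋃₀ S := hg
    have hint : ∀ C : Set E, interior (g '' C) = g '' interior C := fun C =>
      (g.toHomeomorph.image_interior C).symm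
    have hcov : ∀ A ∈ S, interior (g '' A) ⊆ ⋃₀ S := fun A hA => by
      rw [← hg']
      exact interior_subset.trans (image_mono (subset_sUnion_of_mem hA))
    have hmix : ∀ A ∈ 𝒯, A ∉ S → ∀ B ∈ S, Disjoint (interior A) (interior (g '' B)) := by
      intro A hA hAS B hB
      refine disj_two (𝒜 := {A}) (𝒜' := S) (fun C hC => ?_) (fun C hC => hreg C (hS hC))
        (fun C hC D hD => ?_) (fun x hx => ⟨A, rfl, interior_subset hx⟩) (hcov B hB)
      · rw [mem_singleton_iff.1 hC]
        exact hreg A hA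
      · rw [mem_singleton_iff.1 hC]
        exact hT.1.2 hA (hS hD) (fun h => hAS (by rw [h]; exact hD))
    refine ⟨⟨?_, ?_⟩, ?_⟩
    · rintro A (⟨hA, -⟩ | ⟨B, hB, rfl⟩)
      · exact hT.1.1 A hA
      · obtain ⟨e, rfl⟩ := hT.1.1 B (hS hB)
        refine ⟨e.trans g, ?_⟩
        show g '' (e '' T) = (fun x => g (e x)) '' T
        rw [image_image]
    · rintro A (⟨hA, hA'⟩ | ⟨A', hA', rfl⟩) B (⟨hB, hB'⟩ | ⟨B', hB', rfl⟩) hAB
      · exact hT.1.2 hA hB hAB
      · exact hmix A hA hA' B' hB'
      · exact (hmix B hB hB' A' hA').symm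
      · have hne' : A' ≠ B' := fun e => hAB (by rw [e])
        show Disjoint (interior (g '' A')) (interior (g '' B'))
        rw [hint, hint]
        exact (disjoint_image_iff g.injective).2 (hT.1.2 (hS hA') (hS hB') hne')
    · rw [eq_univ_iff_forall]
      intro x
      have hx : x ∈ ⋃₀ 𝒯 := by rw [hT.2]; exact mem_univ x
      obtain ⟨A, hA, hxA⟩ := hx
      by_cases h : A ∈ S
      · have h1 : x ∈ g '' ⋃₀ S := by
          rw [hg']
          exact ⟨A, h, hxA⟩
        obtain ⟨y, ⟨B, hB, hyB⟩, rfl⟩ := h1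
        exact ⟨g '' B, Or.inr ⟨B, hB, rfl⟩, mem_image_of_mem g hyB⟩
      · exact ⟨A, Or.inl ⟨hA, h⟩, hxA⟩
  have h1 : (⋃ 𝒱 ∈ {𝒱 : Set (Set E) | IsTiling T 𝒱 ∧ τ ∈ 𝒱}, ⋃ c ∈ 𝒱,
      {g : E ≃ᵢ E | g '' σ = c}).Countable := by
    refine (key hne hcl hsym hc τ).biUnion fun 𝒱 h𝒱 => ?_
    refine (tiling_countable hne hcl h𝒱.1.1).biUnion fun c hc' => ?_
    exact between_countable hsym (h𝒱.1.1.1 c hc')
  refine h1.mono fun g hg => ?_
  rw [mem_iUnion₂]
  refine ⟨𝒰 g, ⟨htil g hg, Or.inl ⟨hτ, hτS⟩⟩, ?_⟩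
  rw [mem_iUnion₂]
  exact ⟨g '' σ, Or.inr ⟨σ, hσ, rfl⟩, rfl⟩

/-- Only finitely many tiles meet a given ball if the prototile is bounded. -/
theorem locally_finite {T : Set E} (hne : T.Nonempty) (hcl : closure (interior T) = T)
    (hb : Bornology.IsBounded T) {𝒰 : Set (Set E)} (hU : Packing T 𝒰) (x : E) (R : ℝ) :
    {A | A ∈ 𝒰 ∧ (A ∩ Metric.closedBall x R).Nonempty}.Finite := by
  obtain ⟨c0, hc0⟩ : (interior T).Nonempty := by
    by_contra hcon
    rw [not_nonempty_iff_eq_empty] at hcon
    rw [hcon, closure_empty] at hcl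
    exact hne.ne_empty hcl.symm
  obtain ⟨r, hr, hball⟩ := Metric.isOpen_iff.1 isOpen_interior c0 hc0
  obtain ⟨D, hD⟩ := Metric.isBounded_iff.1 hb
  choose! e he using hU.1
  have hcA : ∀ A ∈ 𝒰, Metric.ball (e A c0) r ⊆ interior A := by
    intro A hA y hy
    have h1 : interior (e A '' T) = e A '' interior T :=
      ((e A).toHomeomorph.image_interior T).symm
    have h2 : interior A = e A '' interior T := by rw [← h1, ← he A hA]
    rw [h2]
    refine ⟨(e A).symm y, hball ?_, (e A).apply_symm_apply y⟩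
    rw [Metric.mem_ball] at hy ⊢
    rw [← (e A).isometry.dist_eq, (e A).apply_symm_apply]
    exact hy
  have hsep : ∀ A ∈ 𝒰, ∀ B ∈ 𝒰, A ≠ B → r ≤ dist (e A c0) (e B c0) := by
    intro A hA B hB hAB
    by_contra hlt
    rw [not_le] at hlt
    have h1 : e A c0 ∈ interior B := hcA B hB (by rw [Metric.mem_ball]; exact hlt)
    have h2 : e A c0 ∈ interior A := hcA A hA (Metric.mem_ball_self hr)
    exact disjoint_left.1 (hU.2 hA hB hAB) h2 h1
  obtain ⟨t, -, htf, ht⟩ := (isCompact_closedBall x (R + D)).finite_cover_balls (half_pos hr)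
  have hnear : ∀ A ∈ {A | A ∈ 𝒰 ∧ (A ∩ Metric.closedBall x R).Nonempty},
      ∃ y ∈ t, dist (e A c0) y < r / 2 := by
    rintro A ⟨hA, y, hyA, hy⟩
    have h1 : e A c0 ∈ Metric.closedBall x (R + D) := by
      rw [he A hA] at hyA
      obtain ⟨z, hz, rfl⟩ := hyA
      have h2 : dist (e A c0) (e A z) ≤ D := by
        rw [(e A).isometry.dist_eq]
        exact hD (interior_subset hc0) hz
      rw [Metric.mem_closedBall] at hy ⊢
      linarith [dist_triangle (e A c0) (e A z) x]
    have h3 := ht h1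
    rw [mem_iUnion₂] at h3
    obtain ⟨y, hy, h4⟩ := h3
    exact ⟨y, hy, h4⟩
  choose! φ hφ using hnear
  refine Set.Finite.of_finite_image (f := φ) (htf.subset ?_) ?_
  · rintro _ ⟨A, hA, rfl⟩
    exact (hφ A hA).1
  · intro A hA B hB hAB
    by_contra hne'
    have h1 := hsep A hA.1 B hB.1 hne'
    have h2 := (hφ A hA).2
    have h3 := (hφ B hB).2
    rw [← hAB] at h3
    linarith [dist_triangle_right (e A c0) (e B c0) (φ A)]

/-- The tiles on one side of a fault line cover a closed half-plane. -/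
theorem half {T : Set E} (hne : T.Nonempty) (hcl : closure (interior T) = T)
    (hb : Bornology.IsBounded T) {𝒯 : Set (Set E)} (hT : IsTiling T 𝒯) {p w : E} (hw : w ≠ 0)
    (hside : ∀ A ∈ 𝒯, (∀ x ∈ A, 0 ≤ inner ℝ (x - p) w) ∨ (∀ x ∈ A, inner ℝ (x - p) w ≤ 0)) :
    ⋃₀ {A | A ∈ 𝒯 ∧ ∀ x ∈ A, 0 ≤ inner ℝ (x - p) w} = {x | 0 ≤ inner ℝ (x - p) w} := by
  apply Subset.antisymm
  · rintro x ⟨A, ⟨-, hA⟩, hx⟩
    exact hA x hx
  intro x hx
  have hx' : 0 ≤ inner ℝ (x - p) w := hx
  have hfin := locally_finite hne hcl hb hT.1 x 1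
  set S' : Set (Set E) := {A | A ∈ 𝒯 ∧ (A ∩ Metric.closedBall x 1).Nonempty} ∩
    {A | ∀ x ∈ A, 0 ≤ inner ℝ (x - p) w} with hS'
  have hK : IsClosed (⋃ A ∈ S', A) := by
    refine (hfin.subset inter_subset_left).isClosed_biUnion fun A hA => ?_
    obtain ⟨e, rfl⟩ := hT.1.1 A hA.1.1
    have h1 : IsClosed T := by rw [← hcl]; exact isClosed_closure
    exact e.toHomeomorph.isClosedMap T h1
  have hnw : 0 < ‖w‖ := norm_pos_iff.2 hw
  have hmem : x ∈ closure (⋃ A ∈ S', A) := by
    rw [Metric.mem_closure_iff]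
    intro ε hε
    set m : ℝ := min ε 1 / 2 with hm
    have hm0 : 0 < m := by positivity
    have hmε : m < ε := by
      have := min_le_left ε 1
      linarith
    have hm1 : m ≤ 1 := by
      have := min_le_right ε 1
      linarith
    have hd : dist (x + (m / ‖w‖) • w) x = m := by
      rw [dist_eq_norm, add_sub_cancel_left, norm_smul, Real.norm_of_nonneg (by positivity)]
      field_simp
    have hpos : 0 < inner ℝ (x + (m / ‖w‖) • w - p) w := by
      have h1 : x + (m / ‖w‖) • w - p = (x - p) + (m / ‖w‖) • w := by abel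
      rw [h1, inner_add_left, inner_smul_left, real_inner_self_eq_norm_sq]
      have : 0 < (m / ‖w‖) * ‖w‖ ^ 2 := by positivity
      simp only [conj_trivial]
      linarith
    have hy : x + (m / ‖w‖) • w ∈ ⋃₀ 𝒯 := by rw [hT.2]; exact mem_univ _
    obtain ⟨A, hA, hyA⟩ := hy
    refine ⟨x + (m / ‖w‖) • w, ?_, by rw [dist_comm, hd]; exact hmε⟩
    rw [mem_iUnion₂]
    refine ⟨A, ⟨⟨hA, _, hyA, ?_⟩, ?_⟩, hyA⟩
    · rw [Metric.mem_closedBall, hd]
      exact hm1
    · rcases hside A hA with h | h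
      · exact h
      · exact absurd (h _ hyA) (not_le.2 hpos)
  rw [hK.closure_eq, mem_iUnion₂] at hmem
  obtain ⟨A, hA, hxA⟩ := hmem
  exact ⟨A, ⟨hA.1.1, hA.2⟩, hxA⟩

/-- **Movable regions.** Let `T` be a nonempty set in the plane which is the closure of its interior
and is mapped onto itself by only countably many isometries. (1) If a monohedral tiling `𝒯` with
prototile `T` has a nonempty subfamily `S ≠ 𝒯` whose union is mapped onto itself by uncountably
many isometries, then there are uncountably many monohedral tilings with prototile `T` up to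
isometry. (2) This holds in particular if `T` is bounded and `𝒯` has a fault line: each tile of `𝒯`
lies on one side of the line of all `x` with `⟪x - p, w⟫ = 0`. -/
theorem result (T : Set E) (hne : T.Nonempty) (hcl : closure (interior T) = T)
    (hsym : {e : E ≃ᵢ E | e '' T = T}.Countable) (𝒯 : Set (Set E)) (hT : IsTiling T 𝒯) :
    (∀ S ⊆ 𝒯, S.Nonempty → S ≠ 𝒯 → ¬ {g : E ≃ᵢ E | g '' ⋃₀ S = ⋃₀ S}.Countable →
      ¬ CountablyMany T) ∧
    (∀ p w : E, Bornology.IsBounded T → w ≠ 0 →
      (∀ A ∈ 𝒯, (∀ x ∈ A, 0 ≤ inner ℝ (x - p) w) ∨ (∀ x ∈ A, inner ℝ (x - p) w ≤ 0)) →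
      ¬ CountablyMany T) := by
  refine ⟨fun S hS hS0 hS1 hG => movable hne hcl hsym hT hS hS0 hS1 hG,
    fun p w hb hw hside => ?_⟩
  have hU := half hne hcl hb hT hw hside
  have hww : 0 < inner ℝ w w := real_inner_self_pos.2 hw
  refine movable hne hcl hsym hT (S := {A | A ∈ 𝒯 ∧ ∀ x ∈ A, 0 ≤ inner ℝ (x - p) w})
    (fun A hA => hA.1) ?_ ?_ ?_
  · have h1 : p ∈ ⋃₀ {A | A ∈ 𝒯 ∧ ∀ x ∈ A, 0 ≤ inner ℝ (x - p) w} := by
      rw [hU]
      simp
    obtain ⟨A, hA, -⟩ := h1
    exact ⟨A, hA⟩
  · intro h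
    rw [h, hT.2] at hU
    have h1 : p - w ∈ {x : E | 0 ≤ inner ℝ (x - p) w} := by
      rw [← hU]
      exact mem_univ _
    have h2 : 0 ≤ inner ℝ (p - w - p) w := h1
    have h3 : p - w - p = -w := by abel
    rw [h3, inner_neg_left] at h2
    linarith
  · rw [hU]
    intro hcount
    obtain ⟨v, hv, hvw⟩ : ∃ v : E, v ≠ 0 ∧ inner ℝ v w = (0 : ℝ) := by
      refine ⟨!₂[-(w 1), w 0], ?_, ?_⟩
      · intro h0
        apply hw
        have h1 := congrArg (fun z : E => z 0) h0
        have h2 := congrArg (fun z : E => z 1) h0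
        simp at h1 h2
        ext i
        fin_cases i
        · simpa using h2
        · simpa using h1
      · simp [PiLp.inner_apply, Fin.sum_univ_two]
        ring
    have hinj : Function.Injective (fun s : ℝ => IsometryEquiv.addRight (s • v) (G := E)) := by
      intro s s' h
      have h1 := congrArg (fun g : E ≃ᵢ E => g 0) h
      have h2 : (s • v : E) = s' • v := by simpa using h1
      exact smul_left_injective ℝ hv h2
    have h1 : ((fun s : ℝ => IsometryEquiv.addRight (s • v) (G := E)) '' univ).Countable := by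
      refine hcount.mono ?_
      rintro _ ⟨s, -, rfl⟩
      show (fun x => x + s • v) '' {x : E | 0 ≤ inner ℝ (x - p) w} =
        {x : E | 0 ≤ inner ℝ (x - p) w}
      ext x
      constructor
      · rintro ⟨y, hy, rfl⟩
        have hy' : 0 ≤ inner ℝ (y - p) w := hy
        show 0 ≤ inner ℝ (y + s • v - p) w
        have h3 : y + s • v - p = (y - p) + s • v := by abel
        rw [h3, inner_add_left, inner_smul_left, hvw]
        simpa using hy'
      · intro hx
        have hx' : 0 ≤ inner ℝ (x - p) w := hx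
        refine ⟨x - s • v, ?_, by simp⟩
        show 0 ≤ inner ℝ (x - s • v - p) w
        have h3 : x - s • v - p = (x - p) - s • v := by abel
        rw [h3, inner_sub_left, inner_smul_left, hvw]
        simpa using hx'
    have h2 : (univ : Set ℝ).Countable :=
      Set.countable_of_injective_of_countable_image hinj.injOn h1
    exact Cardinal.not_countable_real h2

end Pool.Agent.Results.MP_5b2085_co.MovableRegions
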