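import Pool.Agent.TilDich.Geo5

set_option autoImplicit false

namespace Pool.Agent.Results.MP_5b2085_co.TranslationDichotomy

/-- The polycube with cells `F`: the union of the closed unit cubes `f + [0,1]^d`, `f ∈ F`. It need
not be connected. -/
def Body {d : ℕ} (F : Finset (Fin d → ℤ)) : Set (EuclideanSpace ℝ (Fin d)) :=
  {x | ∃ f ∈ F, ∀ i, (f i : ℝ) ≤ x i ∧ x i ≤ f i + 1}

/-- The members of `𝒯` cover the space and have pairwise disjoint interiors. -/
def Tiling {d : ℕ} (𝒯 : Set (Set (EuclideanSpace ℝ (Fin d)))) : Prop :=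
  ⋃₀ 𝒯 = Set.univ ∧ 𝒯.Pairwise fun A B => Disjoint (interior A) (interior B)

/-- Monohedral tilings with prototile `T`: all tiles are congruent to `T`. -/
def Monohedral {d : ℕ} (T : Set (EuclideanSpace ℝ (Fin d)))
    (𝒯 : Set (Set (EuclideanSpace ℝ (Fin d)))) : Prop :=
  (∀ A ∈ 𝒯, ∃ e : EuclideanSpace ℝ (Fin d) ≃ᵢ EuclideanSpace ℝ (Fin d), A = e '' T) ∧ Tiling 𝒯

/-- Tilings all of whose tiles are (arbitrary real) translates of `T`. -/
def Translational {d : ℕ} (T : Set (EuclideanSpace ℝ (Fin d)))
    (𝒯 : Set (Set (EuclideanSpace ℝ (Fin d)))) : Prop :=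
  (∀ A ∈ 𝒯, ∃ v : EuclideanSpace ℝ (Fin d), A = (fun x => x + v) '' T) ∧ Tiling 𝒯

/-- All tilings equal to `𝒯` in the sense of the problem: the images of `𝒯` under isometries. -/
def Cls {d : ℕ} (𝒯 : Set (Set (EuclideanSpace ℝ (Fin d)))) :
    Set (Set (Set (EuclideanSpace ℝ (Fin d)))) :=
  {𝒯' | ∃ g : EuclideanSpace ℝ (Fin d) ≃ᵢ EuclideanSpace ℝ (Fin d), 𝒯' = (fun A => g '' A) '' 𝒯}

/-- The number of distinct tilings with property `P` is finite or uncountable. -/
def FiniteOrUncountable {d : ℕ} (P : Set (Set (EuclideanSpace ℝ (Fin d))) → Prop) : Prop :=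
  (Cls '' {𝒯 | P 𝒯}).Finite ∨ ¬ (Cls '' {𝒯 | P 𝒯}).Countable

/-- The polyomino with cells `F` has, up to translations, all eight symmetries of the square (the
condition on the linear isometry `L` says that the first unit vector is mapped into a coordinate
axis; there are eight such `L`). -/
def SquareSymmetric (F : Finset (Fin 2 → ℤ)) : Prop :=
  ∀ L : EuclideanSpace ℝ (Fin 2) ≃ₗᵢ[ℝ] EuclideanSpace ℝ (Fin 2),
    (∃ i, L (EuclideanSpace.single 0 1) i = 0) →
      ∃ c : EuclideanSpace ℝ (Fin 2), L '' Body F = (fun x => x + c) '' Body F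

theorem body_eq {d : ℕ} (F : Finset (Fin d → ℤ)) : Body F = TilDich.body F := by
  ext x
  simp only [Body, TilDich.body, TilDich.cub, Set.mem_iUnion, Set.mem_ofPred_eq, exists_prop]

theorem empty_case {d : ℕ} (P : Set (Set (EuclideanSpace ℝ (Fin d))) → Prop)
    (hP : ∀ 𝒯, P 𝒯 → (∀ A ∈ 𝒯, A = ∅) ∧ ⋃₀ 𝒯 = Set.univ) : FiniteOrUncountable P := by
  left
  have : {𝒯 | P 𝒯} = ∅ := by
    rw [Set.eq_empty_iff_forall_notMem]
    intro 𝒯 h𝒯
    obtain ⟨h1, h2⟩ := hP 𝒯 h𝒯
    have h3 : (0 : EuclideanSpace ℝ (Fin d)) ∈ ⋃₀ 𝒯 := by rw [h2]; trivial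
    obtain ⟨A, hA, h0⟩ := h3
    rw [h1 A hA] at h0
    exact h0
  rw [this, Set.image_empty]
  exact Set.finite_empty

theorem body_empty {d : ℕ} : Body (∅ : Finset (Fin d → ℤ)) = ∅ := by
  ext x
  simp [Body]

/-- **Dichotomy for tilings by translates of a polycube.**
(1) For every polycube `T` in `ℝ^d` (any `d`, `T` not necessarily connected) the number of distinct
tilings of `ℝ^d` by translates of `T` is finite or uncountable.
(2) If in every monohedral tiling with prototile `T` any two tiles are translates of each other,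
the number of distinct monohedral tilings with prototile `T` is finite or uncountable.
(3) This is the case for every polyomino (connected or not) with the eight symmetries of the square.
(4) For every finite subset `F` of a finitely generated abelian group `G` the number of the sets
`A` with `F ⊕ A = G` is finite or uncountable. -/
theorem result :
    (∀ (d : ℕ) (F : Finset (Fin d → ℤ)), FiniteOrUncountable (Translational (Body F))) ∧
    (∀ (d : ℕ) (F : Finset (Fin d → ℤ)),
      (∀ 𝒯, Monohedral (Body F) 𝒯 → ∀ A ∈ 𝒯, ∀ B ∈ 𝒯,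
        ∃ v : EuclideanSpace ℝ (Fin d), B = (fun x => x + v) '' A) →
      FiniteOrUncountable (Monohedral (Body F))) ∧
    (∀ F : Finset (Fin 2 → ℤ), SquareSymmetric F → FiniteOrUncountable (Monohedral (Body F))) ∧
    (∀ (G : Type) [AddCommGroup G] [AddGroup.FG G] (F : Finset G),
      {A : Set G | ∀ x : G, ∃! a, a ∈ A ∧ x - a ∈ F}.Finite ∨
        ¬ {A : Set G | ∀ x : G, ∃! a, a ∈ A ∧ x - a ∈ F}.Countable) := by
  refine ⟨?_, ?_, ?_, ?_⟩
  · intro d F
    rcases F.eq_empty_or_nonempty with rfl | hF
    · refine empty_case _ fun 𝒯 h => ⟨fun A hA => ?_, h.2.1⟩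
      obtain ⟨v, rfl⟩ := h.1 A hA
      rw [body_empty, Set.image_empty]
    · rw [body_eq]
      exact TilDich.polycube_dichotomy hF
  · intro d F H
    rcases F.eq_empty_or_nonempty with rfl | hF
    · refine empty_case _ fun 𝒯 h => ⟨fun A hA => ?_, h.2.1⟩
      obtain ⟨v, rfl⟩ := h.1 A hA
      rw [body_empty, Set.image_empty]
    · rw [body_eq] at H ⊢
      exact TilDich.mono_dichotomy hF H
  · intro F hs
    rcases F.eq_empty_or_nonempty with rfl | hF
    · refine empty_case _ fun 𝒯 h => ⟨fun A hA => ?_, h.2.1⟩
      obtain ⟨v, rfl⟩ := h.1 A hA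
      rw [body_empty, Set.image_empty]
    · unfold SquareSymmetric at hs
      rw [body_eq] at hs ⊢
      exact TilDich.square_dichotomy hF hs
  · intro G _ _ F
    classical
    let φ : (G → Bool) → Set G := fun a => {g | a g = true}
    have hφ : Function.Injective φ := by
      intro a b h
      funext g
      have : (g ∈ φ a) = (g ∈ φ b) := by rw [h]
      have h' : (a g = true) = (b g = true) := this
      rcases ha : a g <;> rcases hb : b g <;> simp_all
    have himg : {A : Set G | ∀ x : G, ∃! a, a ∈ A ∧ x - a ∈ F} =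
        φ '' {a : G → Bool | TilDich.Tl F (fun f => f) a} := by
      ext A
      constructor
      · intro hA
        refine ⟨fun g => decide (g ∈ A), ?_, ?_⟩
        · intro x
          obtain ⟨a, ⟨ha, hax⟩, hu⟩ := hA x
          rw [Finset.sum_eq_single (x - a)]
          · simp [ha, TilDich.ind]
          · intro f hf hne
            have : ¬ (x - f ∈ A) := by
              intro hxf
              have := hu (x - f) ⟨hxf, by simpa using hf⟩
              apply hne
              rw [← this]; abel
            simp [this, TilDich.ind]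
          · intro h
            exact absurd hax h
        · ext g
          exact decide_eq_true_iff
      · rintro ⟨a, ha, rfl⟩ x
        have h1 := ha x
        have h2 : ∑ f ∈ F, TilDich.ind (a (x - f)) = (F.filter fun f => a (x - f) = true).card := by
          rw [Finset.card_filter]
          exact Finset.sum_congr rfl fun f _ => rfl
        rw [h2, Finset.card_eq_one] at h1
        obtain ⟨f, hf⟩ := h1
        have hf' : f ∈ F.filter fun f => a (x - f) = true := by
          rw [hf]; exact Finset.mem_singleton_self _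
        rw [Finset.mem_filter] at hf'
        refine ⟨x - f, ⟨hf'.2, by simpa using hf'.1⟩, ?_⟩
        rintro m ⟨hm, hxm⟩
        have : x - m ∈ F.filter fun f => a (x - f) = true := by
          rw [Finset.mem_filter]
          have hm' : a m = true := hm
          exact ⟨hxm, by simpa using hm'⟩
        rw [hf, Finset.mem_singleton] at this
        rw [← this]; abel
    rw [himg]
    rcases TilDich.finite_or_uncountable F (fun f : G => f) with h | h
    · exact Or.inl (h.image φ)
    · right
      intro hc
      exact h (Set.countable_of_injective_of_countable_image hφ.injOn hc)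

end Pool.Agent.Results.MP_5b2085_co.TranslationDichotomy
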